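import Pool.Agent.Helper48.SP.Induct
import Pool.Agent.Helper48.SP.EffGen

/-!
# The Galois coniveau filtration of all products of powers of varieties with big monodromy

Let `V = ⊕ V_b`, `b ∈ B`, be the cohomology (coefficients extended to `ℚ̄_ℓ ≅ ℂ`) of a smooth
projective variety `X` over a number field, or of several such varieties: the pieces `V_b` have the
weight (degree) `wt b` and an invariant form of sign `(-1) ^ wt b`; for a complete intersection these
are the primitive cohomology and pieces of dimension one spanned by algebraic classes, for a K3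
surface the transcendental part and algebraic classes, and so on. The cohomology of the products of
powers of these varieties is a sum of pieces `V_(b 1) ⊗ ... ⊗ V_(b m)` of the tensor powers of `V`,
of degree `wt (b 1) + ... + wt (b m)`. The basis of `V` consists of the letters `(b, j)`,
`j < dim b`, the form pairs `(b, j)` with `(b, dim b - 1 - j)`. An element of `V^(⊗ m)` is a function
on the words `Fin m → Ind k`.
`𝓕` is the set of the pairs (number `q` of elements of the residue field, Frobenius on `V`) for the
places of good reduction prime to `ℓ`.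
-/

set_option autoImplicit false

namespace Pool.Agent.Results.MP_8abef2_ag.AllPowers

open Polynomial Pool.Agent.Helper48.SP Pool.Agent.Helper48.GC8

variable {B : Type} [Fintype B] [DecidableEq B]

/-- A Frobenius on `V`, with the number of elements of the residue field. -/
abbrev Frob (k : B → Blk) : Type := ℕ × Matrix (Ind k) (Ind k) ℂ

/-- The matrix `M` on the tensor power `V^(⊗ m)`. -/
noncomputable def tensorPower {k : B → Blk} {m : ℕ} (M : Matrix (Ind k) (Ind k) ℂ)
    (u : (Fin m → Ind k) → ℂ) : (Fin m → Ind k) → ℂ := fun x => ∑ y, (∏ p, M (x p) (y p)) * u y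

/-- `U ⊆ V^(⊗ m)` is a subrepresentation of degree `i` such that `U(ν)` is effective of weight
`i - 2ν`: `U` is stable under all Frobenii, and for every eigenvalue `β` of a Frobenius `(q, M)` on
`U` both `β / q ^ ν` and `q ^ (i - ν) / β = q ^ (i - 2ν) / (β / q ^ ν)` are algebraic integers. -/
structure IsEffective {k : B → Blk} (𝓕 : Set (Frob k)) (m i ν : ℕ)
    (U : Submodule ℂ ((Fin m → Ind k) → ℂ)) : Prop where
  degree : ∀ u ∈ U, ∀ y, u y ≠ 0 → ∑ p, (k (y p).1).wt = i
  stable : ∀ z ∈ 𝓕, ∀ u ∈ U, tensorPower z.2 u ∈ U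
  integral : ∀ z ∈ 𝓕, ∀ u ∈ U, u ≠ 0 → ∀ β : ℂ, tensorPower z.2 u = β • u →
    IsIntegral ℤ (β / (z.1 : ℂ) ^ ν) ∧ IsIntegral ℤ ((z.1 : ℂ) ^ (i - ν) / β)

/-- The Galois coniveau: the span of all subrepresentations `U` of degree `i` of `V^(⊗ m)` such that
`U(ν)` is effective of weight `i - 2ν`. -/
noncomputable def galoisConiveau {k : B → Blk} (𝓕 : Set (Frob k)) (m i ν : ℕ) :
    Submodule ℂ ((Fin m → Ind k) → ℂ) := sSup {U | IsEffective 𝓕 m i ν U}

/-- The span of the tensors of degree `i` and the products of pieces of total value at least `ν`. -/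
noncomputable def pieceConiveau (k : B → Blk) (m i ν : ℕ) :
    Submodule ℂ ((Fin m → Ind k) → ℂ) := D k (Fin m) ν ⊓ deg k (Fin m) i

/-- The alternating tensors in `V_b^(⊗ j)`, that is, `Λʲ V_b`. -/
def altPart (k : B → Blk) (b : B) (j : ℕ) : Submodule ℂ ((Fin j → Ind k) → ℂ) where
  carrier := {t | IsAlt b t}
  zero_mem' := ⟨fun y hy => absurd rfl hy, fun y p q _ => by simp⟩
  add_mem' := by
    intro s t hs ht
    refine ⟨fun y hy p => ?_, fun y p q hpq => ?_⟩
    · by_cases h : s y = 0
      · exact ht.supp y (fun h' => hy (by rw [Pi.add_apply, h, h', add_zero])) p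
      · exact hs.supp y h p
    · rw [Pi.add_apply, Pi.add_apply, hs.alt y p q hpq, ht.alt y p q hpq, neg_add]
  smul_mem' := by
    intro c t ht
    refine ⟨fun y hy p => ?_, fun y p q hpq => ?_⟩
    · exact ht.supp y (fun h' => hy (by rw [Pi.smul_apply, h', smul_zero])) p
    · rw [Pi.smul_apply, Pi.smul_apply, ht.alt y p q hpq, smul_neg]

/-- A system of Frobenii with big monodromy: similitudes of the forms of all blocks, with the
multipliers `q ^ wt b`, and every polynomial in `q` and the entries of the Frobenius which vanishes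
on `𝓕` vanishes at all `(c, M)` with `M` a proper similitude of the form of the block `b` with
multiplier `c ^ wt b`, for all `b`. -/
structure IsBig {k : B → Blk} (𝓕 : Set (Frob k)) : Prop where
  two_le : ∀ z ∈ 𝓕, 2 ≤ z.1
  similitude : ∀ z ∈ 𝓕, InGO k (z.1 : ℂ) z.2
  dense : ∀ f : MvPolynomial (Option (Ind k × Ind k)) ℂ,
    (∀ z ∈ 𝓕, MvPolynomial.eval (fun o => o.elim (z.1 : ℂ) (fun p => z.2 p.1 p.2)) f = 0) →
    ∀ (c : ℂ) (M : Matrix (Ind k) (Ind k) ℂ), InG k c M →
      MvPolynomial.eval (fun o => o.elim c (fun p => M p.1 p.2)) f = 0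

/-- The Newton polygons lie above the polygon of the slopes: for every place and every `j`, `Λʲ V_b` is
effective of weight `j * wt b - 2 nu j` after the twist by `nu j`, the sum of the first `j` slopes of
`V_b`. -/
def IsAbove {k : B → Blk} (𝓕 : Set (Frob k)) : Prop :=
  ∀ b j, IsEffective 𝓕 j (j * (k b).wt) ((k b).nu j) (altPart k b j)

section Proof

variable {k : B → Blk} {𝓕 : Set (Frob k)}

lemma tensorPower_eq {m : ℕ} (M : Matrix (Ind k) (Ind k) ℂ) (u : (Fin m → Ind k) → ℂ) :
    tensorPower M u = rho Finset.univ M u := (funext fun x => rho_univ_apply M u x).symm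

theorem galois_le (hk : ∀ b, (k b).Ok) (h : IsBig 𝓕) (ho : ∃ z ∈ 𝓕, IsOrd k z) (m i ν : ℕ) :
    galoisConiveau 𝓕 m i ν ≤ pieceConiveau k m i ν := by
  refine sSup_le fun U hU => le_inf ?_ fun u hu => hU.degree u hu
  refine le_D hk h.similitude ho m (Fin m) (by rw [Fintype.card_fin]) ν U ?_ ?_
  · refine Pool.Agent.Helper48.PW.stab_of_dense (fun f hf c M hcM => h.dense f hf c M hcM) ?_
    intro z hz u hu
    rw [← tensorPower_eq]
    exact hU.stable z hz u hu
  · intro z hz
    have hst : ∀ x ∈ U, rho Finset.univ z.2 x ∈ U := fun u hu => by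
      rw [← tensorPower_eq]; exact hU.stable z hz u hu
    have hfin : FiniteDimensional ℂ U := inferInstance
    let Φ : Module.End ℂ U := (rho Finset.univ z.2).restrict hst
    refine ⟨minpoly ℂ Φ, ?_, ?_⟩
    · intro β hβ
      obtain ⟨v, hv⟩ := (Module.End.hasEigenvalue_of_isRoot hβ).exists_hasEigenvector
      have h1 : Φ v = β • v := hv.apply_eq_smul
      have h2 : rho Finset.univ z.2 v.1 = β • v.1 := congrArg Subtype.val h1
      refine (hU.integral _ hz v.1 v.2 (fun h0 => hv.2 (Subtype.ext h0)) β ?_).1
      rw [tensorPower_eq]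
      exact h2
    · intro x hx
      have h1 := aeval_semiconj U.subtype Φ (rho Finset.univ z.2) (fun v => rfl)
        (minpoly ℂ Φ) ⟨x, hx⟩
      have h0 : aeval Φ (minpoly ℂ Φ) = 0 := minpoly.aeval ℂ Φ
      rw [h0, LinearMap.zero_apply, map_zero] at h1
      exact h1.symm

theorem piece_effective (hk : ∀ b, (k b).Ok) (h : IsBig 𝓕) (ha : IsAbove 𝓕) (m i ν : ℕ) :
    IsEffective 𝓕 m i ν (pieceConiveau k m i ν) where
  degree u hu := hu.2
  stable z hz u hu := by
    rw [tensorPower_eq]
    refine ⟨D_stab hk ν (h.similitude z hz) hu.1, ?_⟩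
    exact deg_stab (h.similitude z hz) hu.2
  integral z hz u hu h0 β hβ := by
    rw [tensorPower_eq] at hβ
    refine eigen_D_gen hk (by have := h.two_le z hz; omega) (h.similitude z hz)
      (fun b j t ht ht0 β hβ => ?_) hu.1 hu.2 h0 hβ
    refine (ha b j).integral z hz t ht ht0 β ?_
    rw [tensorPower_eq]
    exact hβ

end Proof

/-- **The Galois coniveau filtration for all products of powers of varieties with big monodromy.**
Let `𝓕` be a system of Frobenii with big monodromy, with an ordinary place. Then the Galois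
coniveau `N^ν` of all tensor powers of `V` is contained in the span of the products of pieces of
total value at least `ν`: the pieces are the invariant forms in `V_b ⊗ V_b`, of value `wt b`, and
the alternating tensors in `Λʲ V_b`, of value the sum of the first `j` slopes of `V_b`. It is equal
to this span if the Newton polygons lie above the polygon of the slopes. -/
theorem result (k : B → Blk) (hk : ∀ b, (k b).Ok) (𝓕 : Set (Frob k)) (h : IsBig 𝓕)
    (ho : ∃ z ∈ 𝓕, IsOrd k z) (m i ν : ℕ) :
    galoisConiveau 𝓕 m i ν ≤ pieceConiveau k m i ν ∧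
      (IsAbove 𝓕 → galoisConiveau 𝓕 m i ν = pieceConiveau k m i ν) :=
  ⟨galois_le hk h ho m i ν, fun ha =>
    le_antisymm (galois_le hk h ho m i ν) (le_sSup (piece_effective hk h ha m i ν))⟩

end Pool.Agent.Results.MP_8abef2_ag.AllPowers
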