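import Mathlib
import Pool.Agent.Helper9.NS
import Pool.Agent.Helper26.VC.Final
import Pool.Agent.Helper26.VC.SymFinal
import Pool.Agent.Helper17.IR.QuotS
import Pool.Agent.Helper79.B4.Final
import Pool.Agent.Helper70.B4.Pi

/-!
# Voisin's conjecture for irregular surfaces with `χ = 1`

Let `k` be an algebraically closed field of characteristic zero. We prove, with `p = p_g(S)`:

(V) for all `n > p` and all Albanese trivial zero-cycles `a_1, …, a_n` on `S` a positive multiple of the alternating
sum of the exterior products `a_{σ(1)} × ⋯ × a_{σ(n)}` is rationally equivalent to zero on `S ^ n`,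

for all surfaces `S` of the following list (`Listed`); by the classification it contains all minimal surfaces of general
type with `χ(O_S) = 1` and `q(S) ≥ 3`, or with `χ(O_S) = 1`, `q(S) = 2` and `K_S² = 4`:

1. all products `C₁ × C₂` of two curves, `p = g₁ g₂`;
2. all symmetric squares `Sym² C` of curves, `p = g (g - 1) / 2`;
3. all quotients `(C₁ × C₂) / (σ₁, σ₂)`, where `C₁` and `C₂` are hyperelliptic curves (or curves of genus at most one) with
   commuting involutions `η_i` and `σ_i ≠ η_i`, `C_i / η_i` rational,
   `p = g(C₁ / σ₁) g(C₂ / σ₂) + g(C₁ / σ₁ η₁) g(C₂ / σ₂ η₂)`;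
4. (`Phi`) all projective surfaces with the function field of
   `{P₁ + P₂ + P₃ : c₀ + c₁ e₁ + c₂ e₂ + c₃ e₃ = 0} ⊆ Sym³ C`, `e_j` the elementary symmetric functions of
   `x(P₁), x(P₂), x(P₃)`, where `C : y ^ 2 = f(x)` is a curve of genus two, `deg f = 6`; here `p = 2`;
5. (`Psi`) all projective surfaces with the function field of the double cover `w ^ 2 = c₀ + c₁ (x₀ + x₁) + c₂ x₀ x₁` of
   `Sym² C`, where `C : y ^ 2 = f(x)` is a curve of genus two, `deg f = 5`; here `p = 2`;
6. (`Pi`) all projective surfaces with the function field of the double cover `w ^ 2 = c₀ + c₁ x₀ + c₂ x₁ + c₃ x₀ x₁` of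
   the product of the elliptic curves `y₀ ^ 2 = f₀(x₀)` and `y₁ ^ 2 = f₁(x₁)`, `deg f_i = 3`; here `p = 2`.

In 4, 5, 6 the surface is given as follows: `N` is the field generated over `k` by all `x_i`, `y_i` and `w`, it is of degree
eight over `k(x₀, x₁)`. (This is automatic in 4 unless the form `φ` is a cube, because at least four of the six curves
`φ(x₀, x₁, a_j) = 0`, `f(a_j) = 0`, are irreducible, different, and simple components of `f(x₂) = 0`; in 5 and 6 it is
automatic if the branch divisor is reduced.) `S` is the closure of a point `ξ` of the projective space with coordinates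
in `N`, fixed by the group `S₃` of the permutations of the pairs `(x_i, y_i)` in 4, by the group `S₂` in 5. (So the theorem
contains all projective surfaces with the function field `N ^ S₃` and `N ^ S₂`, and all surfaces dominated by them.) A zero-cycle on `S` is Albanese
trivial (`AlbTriv`) if its pull-back to `N` is: the cycle is the image of a combination of rational places of `N`, and the
sum of the translates of this combination under the group has degree zero and restricts to a principal divisor on every
smooth projective curve `B` with `k(B) ⊆ N`. (It suffices that the Albanese variety of `S` is mapped isogenously to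
products of Jacobians of such curves, and the pull-back of an Albanese trivial cycle is always Albanese trivial.)

Remarks (not part of the theorem). The theorem contains Voisin's conjecture, for all `n > p_g(S)` (with integral
coefficients by Roitman's theorem), for ALL minimal surfaces `S` of general type with `χ(O_S) = 1` and `q(S) ≥ 3`, or with
`χ(O_S) = 1`, `q(S) = 2` and `K_S² = 4`:

* `p_g = q = 4`: `S` is the product of two curves of genus two (Beauville), and `q ≥ 5` is impossible;
* `p_g = q = 3`: `K² = 6` and `S` is the symmetric square of a curve of genus three, or `K² = 8` and `S` is the quotient of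
  `C₁ × C₂` by `(σ₁, σ₂)`, where `C₁` is a curve of genus two, `C₁ / σ₁` is elliptic, `C₂` is a curve of genus three and `σ₂`
  has no fixed points (Catanese, Ciliberto, Mendes Lopes; Hacon, Pardini; Pirola). Then `C₂` is hyperelliptic: for an
  étale double cover `C₂` of a curve of genus two with the Weierstrass points `w_i` which is given by the class
  `w_i - w_j`, the function field is `k(x, √α, √β)` with `deg α = 2`, `deg β = 4`. So `S` is as in 3, with
  `p = 1 * 2 + 1 * 1 = 3`;
* `p_g = q = 2`, `K² = 4`: the canonical model of `S` is a double cover of its Albanese surface `A`, a principally polarized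
  abelian surface, branched along a divisor `B` in `|2 Θ|` with negligible singularities (Barja, Pardini, Stoppino; Lu, Zuo;
  `K² = 4 χ` is the equality in the Severi inequality; `S` has maximal Albanese dimension, because otherwise
  `K² ≥ 8 (b - 1) (g - 1) ≥ 8`). If `A = E₀ × E₁` this is 6. Let `A = J(C)`. The surface
  of 4 is a double cover of `Pic³ C`: it meets each pencil `|D|`, `deg D = 3`, in two points, and the branch divisor
  is the discriminant; the map from the forms `φ = c₀ + c₁ e₁ + c₂ e₂ + c₃ e₃` to `|2 Θ| = ℙ³` is given by the quadrics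
  through the six points `φ = ∏_i (x_i - a_j)`, `f(a_j) = 0`, its general fibre consists of two points, and it is
  surjective if the blow up of the six points is added; the surfaces for the exceptional points are those in 5,
  where `a_j` has been moved to infinity.

These surfaces have up to six moduli in the cases 4, 5, 6, and the families in 1, 2, 3 are of unbounded `p_g`.
(The surfaces in 4, 5, 6 also belong to the class of the hand-in GeneralType; the proof here is independent of it.)

Outline of the proof.

* 1, 2 (`Helper26/VC`): by Riemann's inequality, `g + 1` points of a curve can be moved so that one of them is a given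
  point `o`; so the symmetrization of `(x_0 - o) × ⋯ × (x_g - o)` is torsion in the Chow group of `C ^ (g + 1)`. The rest
  is the representation theory of symmetric groups: a vector which is killed by the symmetrizers on `g₁ + 1` letters and
  by the antisymmetrizers on `g₂ + 1` letters vanishes if there are more than `g₁ g₂` letters, and a vector in a
  representation of the symmetric group of `2 n` letters which is invariant under the exchange of the members
  of `n` pairs, anti-invariant under the exchange of two pairs and killed by the symmetrizers on `g + 1` letters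
  vanishes if `n > g (g - 1) / 2`.
* 3 (`Helper70/BQ`, `Helper17/IR/QuotS`): the group `⟨η₁, σ₁⟩ × ⟨η₂, σ₂⟩` acts on the cycles on `C₁ × C₂`; the average over
  `(σ₁, σ₂)` is a combination of averages over products of subgroups, and all products of quotient curves which occur
  have a rational factor, except for `C₁ / σ₁ × C₂ / σ₂` and `C₁ / σ₁ η₁ × C₂ / σ₂ η₂`.
* 4, 5, 6: let `G` be the group of the automorphisms of `N` given by permutations and changes of signs of the `y_i` and of
  `w`, and `H ⊆ G` the group of permutations. There are three subgroups `Γ_j` of `G` (`ε_0 = 1` and `π(0) = 0`; `ε_0 ε_1 = 1` and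
  `π(2) = 2`; `ε_0 ε_1 ε_2 = 1`) such that a multiple of the value at `1` of every function on `G` which is invariant under
  right translations by `H` is a combination of its sums over left cosets of the `Γ_j`. The fixed field of the first one is the function field of a ruled surface, those of the other ones are
  the function fields of the Kummer surface of `C` and of the double plane over the six lines
  `a_j³ - a_j² e₁ + a_j e₂ - e₃ = 0`, where `c₀ + c₁ e₁ + c₂ e₂ + c₃ e₃ = 0`; both are elliptic surfaces with full two-torsion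
  over the line, and satisfy (V) with `p = 1` (`GeneralType`). By the decomposition theorem (V) for the fixed fields
  with `p = 0, 1, 1` gives (V) for `S` with `p = 2`. The cases 5 and 6 are similar.
-/

namespace Pool.Agent.Results.MP_83b46e_ag.IrregularSurfaces

open VC VQ Function Pool.Agent.Helper21.TO Pool.Agent.Helper15.GT Pool.Agent.Helper35.IR
open Pool.Agent.Helper79.B4 (Phi Psi)
open Pool.Agent.Helper70.B4 (Pi)

universe u

/-- The zero-cycles on the closure of the point `ξ` with Albanese trivial pull-back to `N`; the coordinates of `ξ` are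
elements of `N` fixed by the finite group `H` of automorphisms of `N`. -/
def AlbTriv (k : Type u) {N : Type u} [Field k] [IsAlgClosed k] [CharZero k] [Field N] [Algebra k N]
    (H : Subgroup (N ≃ₐ[k] N)) {M : ℕ} (ξ : Fin M → N) (hξ : ξ ≠ 0) : Set (proj k (van k ξ)).Cycles :=
  {b | ∃ a : RPl k N →₀ ℤ,
    AJ k N (∑ᶠ η : H, a.mapDomain (fun w => w.comap ((η : N ≃ₐ[k] N) : N →ₐ[k] N))) ∧
    b = a.mapDomain (evP ξ hξ)}

/-- The list of the surfaces of the theorem: a surface `S`, a set of zero-cycles on `S` containing all Albanese trivial ones,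
and the number `p`. -/
inductive Listed (k : Type u) [Field k] [IsAlgClosed k] [CharZero k] : (S : Variety k) → Set S.Cycles → ℕ → Prop
  /-- products of two curves -/
  | product (F₁ F₂ : Type u) [Field F₁] [Algebra k F₁] [Field F₂] [Algebra k F₂] (h₁ : IsFunctionField k F₁)
      (h₂ : IsFunctionField k F₂) (g₁ g₂ : ℕ) (hg₁ : IsGenus k F₁ g₁) (hg₂ : IsGenus k F₂ g₂) :
      Listed k ((curve h₁).prod (curve h₂)) {a | AlbaneseTrivial (curve h₁) (curve h₂) a} (g₁ * g₂)
  /-- symmetric squares of curves -/
  | symSquare (F : Type u) [Field F] [Algebra k F] (hF : IsFunctionField k F) (g : ℕ) (hg : IsGenus k F g) :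
      Listed k (curve hF).symSq {a | AlbaneseTrivialSym (curve hF) a} (g.choose 2)
  /-- quotients of products of two hyperelliptic curves -/
  | quotient (F₁ F₂ : Type u) [Field F₁] [Algebra k F₁] [Field F₂] [Algebra k F₂] (h₁ : IsFunctionField k F₁)
      (h₂ : IsFunctionField k F₂) (η₁ σ₁ : F₁ ≃ₐ[k] F₁) (η₂ σ₂ : F₂ ≃ₐ[k] F₂) (H₁ : Hyp η₁ σ₁) (H₂ : Hyp η₂ σ₂)
      (p₁ q₁ p₂ q₂ : ℕ)
      (hp₁ : IsGenus k (IntermediateField.fixedField (Subgroup.zpowers σ₁)) p₁)
      (hq₁ : IsGenus k (IntermediateField.fixedField (Subgroup.zpowers (σ₁ * η₁))) q₁)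
      (hp₂ : IsGenus k (IntermediateField.fixedField (Subgroup.zpowers σ₂)) p₂)
      (hq₂ : IsGenus k (IntermediateField.fixedField (Subgroup.zpowers (σ₂ * η₂))) q₂) :
      Listed k (quotSurface h₁ h₂ (Kl η₁ σ₁) (Kl η₂ σ₂) (Gst η₁ σ₁ η₂ σ₂))
        {a | AlbaneseTrivial (curve h₁) (curve h₂) (pullCycle h₁ h₂ (Kl η₁ σ₁) (Kl η₂ σ₂) (Gst η₁ σ₁ η₂ σ₂) a)}
        (p₁ * p₂ + q₁ * q₂)
  /-- double covers of the Jacobian of a curve of genus two -/
  | phi (N : Type u) [Field N] [Algebra k N] (D : Phi k N) (M : ℕ) (ξ : Fin M → N) (hξ : ξ ≠ 0)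
      (hfix : ∀ η ∈ D.H, ∀ i, η (ξ i) = ξ i) : Listed k (proj k (van k ξ)) (AlbTriv k D.H ξ hξ) 2
  | psi (N : Type u) [Field N] [Algebra k N] (D : Psi k N) (M : ℕ) (ξ : Fin M → N) (hξ : ξ ≠ 0)
      (hfix : ∀ η ∈ D.H, ∀ i, η (ξ i) = ξ i) : Listed k (proj k (van k ξ)) (AlbTriv k D.H ξ hξ) 2
  /-- double covers of products of two elliptic curves -/
  | pi (N : Type u) [Field N] [Algebra k N] (D : Pi k N) (M : ℕ) (ξ : Fin M → N) (hξ : ξ ≠ 0) :
      Listed k (proj k (van k ξ)) (AlbTriv k ⊥ ξ hξ) 2

theorem result {k : Type u} [Field k] [IsAlgClosed k] [CharZero k] {S : Variety k} {H : Set S.Cycles} {p : ℕ}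
    (h : Listed k S H p) (n : ℕ) (hn : p < n) (a : Fin n → S.Cycles) (ha : ∀ i, a i ∈ H) :
    ∃ m : ℕ, 0 < m ∧ m • ∑ σ : Equiv.Perm (Fin n), ((Equiv.Perm.sign σ : ℤˣ) : ℤ) •
      extProd (fun i => a (σ i)) ∈ (S.pow n).Rat := by
  cases h with
  | product F₁ F₂ h₁ h₂ g₁ g₂ hg₁ hg₂ =>
    exact alternating_product h₁ h₂ n g₁ g₂ hg₁.1 hg₂.1 hn a ha
  | symSquare F hF g hg =>
    exact alternating_symSq' hF n g hg.1 hn a ha
  | quotient F₁ F₂ h₁ h₂ η₁ σ₁ η₂ σ₂ H₁ H₂ p₁ q₁ p₂ q₂ hp₁ hq₁ hp₂ hq₂ =>
    exact quot_main h₁ h₂ η₁ σ₁ η₂ σ₂ H₁ H₂ p₁ q₁ p₂ q₂ hp₁ hq₁ hp₂ hq₂ n hn a ha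
  | phi N D M ξ hξ hfix =>
    let _ : Fintype D.H := Fintype.ofFinite _
    refine D.vpjh M ξ hξ hfix n hn a fun i => ?_
    obtain ⟨b, hb, h⟩ := ha i
    exact ⟨b, by rwa [finsum_eq_sum_of_fintype] at hb, h⟩
  | psi N D M ξ hξ hfix =>
    let _ : Fintype D.H := Fintype.ofFinite _
    refine D.vpjh M ξ hξ hfix n hn a fun i => ?_
    obtain ⟨b, hb, h⟩ := ha i
    exact ⟨b, by rwa [finsum_eq_sum_of_fintype] at hb, h⟩
  | pi N D M ξ hξ =>
    refine D.vpj M ξ hξ n hn a fun i => ?_
    obtain ⟨b, hb, h⟩ := ha i
    refine ⟨b, ?_, h⟩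
    rw [finsum_eq_sum_of_fintype, Fintype.sum_unique] at hb
    have e : (fun w : RPl k N => w.comap
        (((default : (⊥ : Subgroup (N ≃ₐ[k] N))) : N ≃ₐ[k] N) : N →ₐ[k] N)) = id := by
      funext w
      ext z
      rfl
    rwa [e, Finsupp.mapDomain_id] at hb

end Pool.Agent.Results.MP_83b46e_ag.IrregularSurfaces
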