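import Pool.Agent.Helper35.KN.Main

/-!
# The generalized Tate conjecture for the powers of a K3 surface

Let `Ω` be an algebraically closed field of characteristic different from `2` and `3`, and `S` a K3
surface over `Ω` with a genus one fibration. Let `H` be the transcendental part of `H²(S)`, the
complement of the classes of divisors. If `S` is an ordinary K3 surface over a finite field, the Tate
classes on the powers of `S` are algebraic by a theorem of Zarhin. Here the classes of coniveau at most
`n / 2` in the `n`-th tensor power of `H` are determined.

The surfaces `Q` (`Helper40/CX/H83QF/Defs.lean`) are the double covers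
`w² = a₀(u) x⁴ + a₁(u) x³ + a₂(u) x² + a₃(u) x + a₄(u)` of rational ruled surfaces, where `a i` is a
binary form of degree `4 + e * (i - 2)`; singular ones are included. The Jacobian fibration
`y² = x³ + A(u) x + B(u)` of `S` is one of them (`e = 4`), there is a dominant rational map from `S` to
it, and the homomorphism of the spaces `H` is bijective (`Linked`); the same is true for the surfaces
of Kodaira dimension one with a genus one fibration over the line and Euler characteristic two. For
the surfaces `Q` the conjecture of Voisin is a theorem (`Helper40/CX`, proved in Lean): if `a`, `b` are
zero-cycles of degree zero on `Q`, then `a × b - b × a` is torsion in the Chow group of `Q × Q`, and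
this over all algebraically closed fields. By the argument of Bloch and Srinivas (an axiom, true for all
surfaces `Q`) the classes `x ⊗ y - y ⊗ x` on `S × S` are supported on divisors. So the tensors of
degree `n` in `H` are symmetric modulo the classes supported on divisors of `S ^ n`.

Let `φ` be a correspondence, for example the Frobenius of a model of `S` over a finite field. We apply
it to one of the factors. If `x` and `y` are generalised eigenvectors with different eigenvalues `a`
and `b`, there is a polynomial `f` with `f(φ) x = x` and `f(φ) y = 0`. Hence `x ⊗ y` is supported on a
divisor. Consider a product of `n` generalised eigenvectors, and let `2 ν ≤ n`. If at most `n - ν` of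
the eigenvalues are equal, there are `ν` disjoint pairs of factors with different eigenvalues, and the
product is supported in codimension `ν`.

Let `S` be an ordinary K3 surface over the field with `q` elements. The Newton polygon of Frobenius
on `H²(S)` has the slopes `0`, `1`, `2`, and `0` and `2` are simple; by the Tate conjecture every
eigenvalue `a` on `H` has a conjugate of slope `0`. So `a` is a unit of a valuation ring, `q ^ 2 / a`
is `q ^ 2` times a unit, and the other eigenvalues are `q` times a unit (`Ordinary`). The products of the
eigenvectors for `a` and `q ^ 2 / a` are classes of cycles by the theorem of Zarhin (`IsTate`). Let `P`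
be a subspace of the `n`-th tensor power of `H` such that `P(ν)` is effective: the eigenvalues of
Frobenius on `P`, divided by `q ^ ν`, are algebraic integers. If `2 ν ≤ n` then `P` is supported in
codimension `ν`. Indeed, if more than `n - ν` of the factors of an eigenvector have the eigenvalue `a`,
then one of the factors has the eigenvalue `q ^ 2 / a`, and these two factors can be split off.

The cohomology of the products `X` of powers `S ^ n` and Hilbert schemes is a sum of tensor powers of
`H` with Tate twists, and so this is the generalized Tate conjecture for `H ^ i(X)` and coniveau
`ν ≤ i / 4`, and for `S × S` it gives all `i` and `ν`.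
-/

set_option autoImplicit false

namespace Pool.Agent.Results.MP_8abef2_ag.K3Powers

open TensorProduct CategoryTheory
open Pool.Agent.Helper15.GD Pool.Agent.Helper35.KN CX.Pool.Agent.Helper83.QF

/-- Let `K` be the function field of the surface `Q` with `N = 2`, and let `K0` be linked to `K`. The
products of `n` elements of `H(K0)` do not depend on the order of the factors modulo the classes
supported on divisors. Let `φ` be an endomorphism of `H(K0)` given by a correspondence, `2 * ν ≤ n`,
and let `P` be a subspace of the `n`-th tensor power which is stable under `g = φ ⊗ ... ⊗ φ`. Assume
that no eigenvalue of `g` on `P` is a product of `n` eigenvalues of `φ` more than `n - ν` of which are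
equal; or that `φ` is ordinary, that the products of generalised eigenvectors for `a` and
`q ^ 2 / a` are supported in codimension two, and that the eigenvalues of `g` on `P`, divided by
`q ^ ν`, are integral. Then `P` is supported in codimension `ν`. -/
theorem result {Ω L : Type} [Field Ω] [IsAlgClosed Ω] [CX.Good Ω] [Field L] [IsAlgClosed L]
    (T : PowCoh Ω L) (hT : T.IsTheory) (Q : Qua Ω) (hN : Q.N = 2) (K K0 : Ext Ω)
    (hK : IsFieldOf Q K) (hK0 : K0.FG) (h : T.Linked K K0) (n ν : ℕ) :
    (∀ (z : Fin n → T.H K0) (σ : Equiv.Perm (Fin n)), Cong (T.sup K0 n 1) z (z ∘ σ)) ∧
    ∀ φ ∈ T.corr K0 K0, 2 * ν ≤ n → ∀ P : Submodule L (tpow (T.H K0) n),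
      IsStable (tmap fun _ => φ) P →
      ((∀ (c : L) (a : Fin n → L), IsEigenvalue (tmap fun _ => φ) P c →
          (∀ i, IsEigenvalue φ ⊤ (a i)) → ∏ i, a i = c → ∀ b, {i | a i = b}.ncard + ν ≤ n) →
            P ≤ T.sup K0 n ν) ∧
        ∀ q : L, Ordinary φ q → T.IsTate φ q →
          (∀ c : L, IsEigenvalue (tmap fun _ => φ) P c → IsIntegral ℤ (c / q ^ ν)) →
            P ≤ T.sup K0 n ν :=
  main T hT Q hN K K0 hK hK0 h n ν

end Pool.Agent.Results.MP_8abef2_ag.K3Powers
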