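import Pool.Agent.Helper35.VN.Main

/-!
# Isomorphisms of group factors and residual chains of subfactors

`L(G)` is the algebra of the functions `x : G → ℂ` such that left convolution by `x` is a bounded
operator on `ℓ²(G)` (the left von Neumann algebra of `G`; `x = X δ_1` for the operator `X`).
-/

set_option autoImplicit false

namespace Pool.Agent.Results.MP_0f6f3f_an.ResidualSubfactors

open Pool.Agent.Helper35.VN

/-- Let `N n` be a decreasing sequence of normal subgroups of `Γ`, relatively icc and with trivial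
intersection, let `θ : L(Γ) → L(Λ)` be a trace-preserving isomorphism and suppose that
`θ(L(N n)) = w_n L(H n) w_n*` for subgroups `H n` of `Λ` and unitaries `w_n` which may depend
on `n`. -/
theorem result {Γ Λ : Type*} [Group Γ] [Group Λ] (θ : (Γ → ℂ) → Λ → ℂ) (hθ : TraceIso θ)
    (N : ℕ → Subgroup Γ) (hN : ∀ n, (N n).Normal) (hanti : Antitone N) (hbot : ⨅ n, N n = ⊥)
    (hicc : ∀ n, RelIcc (N n)) (H : ℕ → Subgroup Λ) (w : ℕ → Λ → ℂ)
    (hw : ∀ n, UnitaryL (w n)) (hconj : ∀ n, ConjL θ (N n) (H n) (w n)) :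
    -- the completions of `Γ` and `Λ` along the two chains agree
    (∃ _ : ∀ n, (H n).Normal, Antitone H ∧ ∃ Φ : ∀ n, Γ ⧸ N n ≃* Λ ⧸ H n,
      ∀ (n : ℕ) (g : Γ) (c : Λ), Φ (n + 1) (g : Γ ⧸ N (n + 1)) = (c : Λ ⧸ H (n + 1)) →
        Φ n (g : Γ ⧸ N n) = (c : Λ ⧸ H n)) ∧
    -- `θ` is standard if and only if the `w_n` do not spread out over the cosets of `H n`
    ((∃ ε : ℝ, 0 < ε ∧ ∀ n, ∃ c : Λ, ε ≤ ∑' h : H n, ‖w n (c * h)‖ ^ 2) ↔ StandardL θ) := by
  obtain ⟨Θ, hΘ⟩ := hθ.exists_iso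
  have hT : TracePreserving Θ := by
    intro x
    rw [hΘ]
    exact hθ.trace _ (inL_cf x.2)
  have h1 := main_op Θ hT N hN hanti hbot hicc H (fun n => op (w n) (hw n).1)
    (fun n => (hw n).isU) (fun n => level_of_conjL hΘ (hw n) (hconj n))
  refine ⟨h1.1, ?_⟩
  rw [← standard_iff hΘ, ← h1.2]
  simp only [cf_op]

end Pool.Agent.Results.MP_0f6f3f_an.ResidualSubfactors
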