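import Pool.Agent.Helper43.TH.Final

/-!
# Lattices in `PSL(n, 𝕜)`, `𝕜 = ℝ, ℂ, ℍ`, against lattices in the other simple groups of the same real rank

`LH Γ` is the group von Neumann algebra `L(Γ)` of a discrete group `Γ`, `IsoL Γ Λ` says that `L(Γ)` and `L(Λ)` are `*`-isomorphic, and `EmbL Γ Λ` that
there is a trace preserving `*`-homomorphism from `L(Γ)` to `L(Λ)`.

Let `L` be a simple real Lie algebra with a Cartan involution `θ`, and `b` a basis of `L` which is orthonormal for the inner product `-κ(x, θ y)`, `κ` the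
Killing form (`CartanBasis θ b`; they exist for every `L`). `MaxFlat θ A` says that `A` is a maximal commutative subspace of `{x | θ x = - x}`; its
dimension is the real rank `r` of `L`. `rootsL A` is the set of the restricted roots: the linear functionals `φ ≠ 0` on `A` with a nonzero vector `x` in `L` such
that `[h, x] = φ(h) x` for all `h` in `A`. `IsTypeA R` says that `R` is the set of the differences `a - b`, `a ≠ b`, of the elements of an affinely independent
set, that is, a root system of type `A`. `IsAdj b G` says that `G` is a closed group of automorphisms of `L` (as matrices) which contains all `exp(ad x)`,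
for example the identity component of `Aut(L)`, the adjoint group; these adjoint groups are the connected simple real Lie groups with trivial centre.
`PSLH n` is `PSL(n, ℍ)`: `SLH n` is the group `SL(n, ℍ)` of the matrices `g` of `SL(2n, ℂ)` with `g J = J ḡ`, `J = (0, -1; 1, 0)`.

Let `r ≥ 2` and let `Γ` be a lattice of `G`. If `L(Γ)` is isomorphic to the algebra of a lattice of `PSL(n, ℝ)`, `PSL(n, ℂ)` or `PSL(n, ℍ)`, for some `n`,
then the restricted root system of `L` is of type `A`, and `n = r + 1` (third to fifth part). The same if there is a trace preserving `*`-homomorphism from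
`L(Γ)` to the algebra of any discrete subgroup of `PSL(n, ℂ)` or `PSL(n, ℍ)`, `n ≤ r + 1` (first and second part).

The restricted root system of `L` is of type `A_r`, `r ≥ 2`, exactly for `L = sl(r + 1, ℝ)`, `sl(r + 1, ℂ)`, `sl(r + 1, ℍ)`, and one exceptional algebra with `r = 2`.
-/

set_option autoImplicit false

open Matrix
open Pool.Agent.Helper66.RKS Pool.Agent.Helper96.SA Pool.Agent.Helper66.BD Pool.Agent.Helper96.TO Pool.Agent.Helper96.HN

namespace Pool.Agent.Helper35.Keep.TypeA

theorem result (L : Type) [LieRing L] [LieAlgebra ℝ L] [LieAlgebra.IsSimple ℝ L] (N : ℕ) (b : Module.Basis (Fin N) ℝ L)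
    (θ : L ≃ₗ⁅ℝ⁆ L) (A : Submodule ℝ L) (G : Subgroup (GL (Fin N) ℝ)) (Γ : Subgroup G)
    (hb : CartanBasis θ b) (hG : IsAdj b G) (hA : MaxFlat θ A) (hr : 2 ≤ Module.finrank ℝ A)
    (hΓ : Pool.Agent.Helper96.FR.Lattice Γ) :
    -- trace preserving homomorphisms to the algebras of discrete subgroups of `PSL(n, ℂ)` and `PSL(n, ℍ)`, `n ≤ r + 1`
    (∀ (n : ℕ) (Λ : Subgroup (ProjectiveSpecialLinearGroup (Fin n) ℂ)), DiscreteTopology Λ → n ≤ Module.finrank ℝ A + 1 →
      EmbL Γ Λ → IsTypeA (rootsL A) ∧ n = Module.finrank ℝ A + 1) ∧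
    (∀ (n : ℕ) (Λ : Subgroup (PSLH n)), DiscreteTopology Λ → n ≤ Module.finrank ℝ A + 1 →
      EmbL Γ Λ → IsTypeA (rootsL A) ∧ n = Module.finrank ℝ A + 1) ∧
    -- isomorphisms with the algebras of lattices of `PSL(n, ℝ)`, `PSL(n, ℂ)`, `PSL(n, ℍ)`
    (∀ (n : ℕ) (Λ : Subgroup (ProjectiveSpecialLinearGroup (Fin n) ℝ)), Pool.Agent.Helper96.FR.Lattice Λ →
      IsoL Γ Λ → IsTypeA (rootsL A) ∧ n = Module.finrank ℝ A + 1) ∧
    (∀ (n : ℕ) (Λ : Subgroup (ProjectiveSpecialLinearGroup (Fin n) ℂ)), Pool.Agent.Helper96.FR.Lattice Λ →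
      IsoL Γ Λ → IsTypeA (rootsL A) ∧ n = Module.finrank ℝ A + 1) ∧
    (∀ (n : ℕ) (Λ : Subgroup (PSLH n)), Pool.Agent.Helper96.FR.Lattice Λ →
      IsoL Γ Λ → IsTypeA (rootsL A) ∧ n = Module.finrank ℝ A + 1) :=
  ⟨fun _ _ hΛ hn h => Pool.Agent.Helper43.TA.type_embC hb hG hA hr hΓ hΛ hn h,
    fun _ _ hΛ hn h => Pool.Agent.Helper43.TH.type_embH hb hG hA hr hΓ hΛ hn h,
    fun _ _ hΛ h => Pool.Agent.Helper43.TA.type_isoR hb hG hA hr hΓ hΛ h,
    fun _ _ hΛ h => Pool.Agent.Helper43.TA.type_isoC hb hG hA hr hΓ hΛ h,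
    fun _ _ hΛ h => Pool.Agent.Helper43.TH.type_isoH hb hG hA hr hΓ hΛ h⟩

end Pool.Agent.Helper35.Keep.TypeA
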